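import Mathlib
import Pool.Agent.H159R3.Exp.Lang

/-!
Lang's question for all projective varieties, restricted to the entire curves whose homogeneous
coordinates are polynomials in the variable and in exponentials of entire functions.
-/

namespace Pool.Agent.Results.MP_f82ddf_nt.ExponentialCurves

open MvPolynomial Pool.Agent.H159R3.Exp

theorem result {K : Type} [Field K] [NumberField K] {ι ι' : Type} {n : ℕ}
    (F : ι → MvPolynomial (Fin (n + 1)) K) (hF : ∀ i, ∃ d, (F i).IsHomogeneous d)
    (G : ι' → MvPolynomial (Fin (n + 1)) K) (hG : ∀ i, ∃ d, (G i).IsHomogeneous d)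
    (hfin : ∀ (L : Type) [Field L] [Algebra K L], FiniteDimensional K L →
      (points F L \ points G L).Finite) (σ : K →+* ℂ) : ExpCurvesInP σ F G :=
  mainP F hF G hG hfin σ

end Pool.Agent.Results.MP_f82ddf_nt.ExponentialCurves
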