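import Mathlib
import Pool.Agent.H159R3.Lang.Powers

/-!
Lang's question for varieties cut out by forms with few monomials, all of whose exponents are
divisible by a number that is large compared with the number of monomials: the implication from
finiteness of rational points to hyperbolicity, and independence of the embedding.
-/

namespace Pool.Agent.Results.MP_f82ddf_nt.PowerForms

open MvPolynomial Pool.Agent.H159R3.Lang

theorem result (K : Type) [Field K] [NumberField K] {ι : Type} {n : ℕ}
    (F : ι → MvPolynomial (Fin (n + 1)) K) (d : ι → ℕ)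
    (hF : ∀ i, (F i).IsHomogeneous (d i)) (hC : ∀ i, PowerSparse (F i)) :
    ((∀ (L : Type) [Field L] [Algebra K L] [FiniteDimensional K L], (points F L).Finite) →
      ∀ σ : K →+* ℂ, Hyperbolic σ F) ∧
    (∀ σ τ : K →+* ℂ, Hyperbolic σ F → Hyperbolic τ F) := by
  constructor
  · intro hfin σ
    by_contra hσ
    obtain ⟨⟨L, i1, i2, i3, hL⟩, _⟩ := powers K F d hF hC ⟨σ, hσ⟩
    exact hL (@hfin L i1 i2 i3)
  · intro σ τ hσ
    by_contra hτ
    exact (powers K F d hF hC ⟨τ, hτ⟩).2 σ hσ

end Pool.Agent.Results.MP_f82ddf_nt.PowerForms
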