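import Mathlib
import Pool.Agent.H159R3.Lang.Sparse

/-!
Lang's question for varieties of arbitrary degree cut out by `r` forms with few mixed monomials:
both sides of the equivalence fail, because the variety contains a line.
-/

namespace Pool.Agent.Results.MP_f82ddf_nt.SparseForms

open MvPolynomial Pool.Agent.H159R3.Lang

theorem result (K : Type) [Field K] [NumberField K] {n r : ℕ}
    (F : Fin r → MvPolynomial (Fin (n + 1)) K) (d : Fin r → ℕ)
    (hF : ∀ i, (F i).IsHomogeneous (d i)) (hd : ∀ i, 0 < d i)
    (hμ : 2 * (2 * r + 1) * mixed F < (n + 1) * (n - 2 * r)) :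
    (∃ (L : Type) (_ : Field L) (_ : Algebra K L), FiniteDimensional K L ∧
      (∃ p q : Fin (n + 1) → L, LinearIndependent L ![p, q] ∧
        ∀ i (s t : L), aeval (s • p + t • q) (F i) = 0) ∧ (points F L).Infinite) ∧
    ∀ σ : K →+* ℂ, ¬ Hyperbolic σ F :=
  sparse F d hF hd hμ

end Pool.Agent.Results.MP_f82ddf_nt.SparseForms
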