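import Mathlib
import Pool.Agent.H159R3.Lang.Line

/-!
Lang's question for varieties cut out by forms of small complex Waring rank (Fermat-Waring type):
the implication from finiteness of rational points to hyperbolicity, a criterion for hyperbolicity
by lines, and the comparison of different embeddings.
-/

namespace Pool.Agent.Results.MP_f82ddf_nt.WaringForms

open MvPolynomial Pool.Agent.H159R3.Lang

theorem result (K : Type) [Field K] [NumberField K] {ι : Type} {n : ℕ}
    (F : ι → MvPolynomial (Fin (n + 1)) K) (d : ι → ℕ)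
    (hF : ∀ i, (F i).IsHomogeneous (d i)) (hd : ∀ i, 0 < d i)
    (σ : K →+* ℂ) (hC : ∀ i, SmallWaring σ (F i) (d i)) :
    ((∀ (L : Type) [Field L] [Algebra K L] [FiniteDimensional K L], (points F L).Finite) →
      Hyperbolic σ F) ∧
    (Hyperbolic σ F ↔ ∀ (L : Type) [Field L] [Algebra K L] [FiniteDimensional K L]
      (p q : Fin (n + 1) → L), LinearIndependent L ![p, q] → ¬ OnLine F p q) ∧
    (∀ τ : K →+* ℂ, Hyperbolic τ F → Hyperbolic σ F) := by
  refine ⟨?_, ⟨?_, ?_⟩, ?_⟩
  · intro hfin
    by_contra hσ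
    obtain ⟨⟨L, i1, i2, i3, _, hL⟩, _⟩ := waring K F d hF hd σ hC hσ
    exact hL (@hfin L i1 i2 i3)
  · intro hσ L _ _ _ p q hpq hline
    have hminor : ∃ j k, p j * q k - p k * q j ≠ 0 := by
      by_contra hcon
      push Not at hcon
      have hq : q ≠ 0 := hpq.ne_zero 1
      obtain ⟨k, hk⟩ := Function.ne_iff.mp hq
      have hk' : q k ≠ 0 := hk
      rw [LinearIndependent.pair_iff] at hpq
      have h1 := hpq (q k) (-p k) (by
        funext j
        simp only [Pi.add_apply, Pi.smul_apply, smul_eq_mul, Pi.zero_apply]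
        linear_combination hcon j k)
      exact hk' h1.1
    obtain ⟨j, k, hjk⟩ := hminor
    exact not_hyperbolic_of_line F p q j k hjk hline σ hσ
  · intro hno
    by_contra hσ
    obtain ⟨⟨L, i1, i2, i3, ⟨p, q, hpq, hline⟩, _⟩, _⟩ := waring K F d hF hd σ hC hσ
    exact @hno L i1 i2 i3 p q hpq hline
  · intro τ hτ
    by_contra hσ
    exact (waring K F d hF hd σ hC hσ).2 τ hτ

end Pool.Agent.Results.MP_f82ddf_nt.WaringForms
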